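import Mathlib

/-!
Matroids on {0,...,2n}: uniform of rank n, except that
* 0 and 2n are parallel,
* (if a) {0,...,n-1} is a circuit-hyperplane (together with its twin copy),
* (if b) {n,...,2n-1} is a circuit-hyperplane.
-/

set_option autoImplicit false

namespace Pool.Agent.U530.WelshUnion

open Set

/-- `{0,…,n-1}` -/
def X (n : ℕ) : Set ℕ := {i | i < n}
/-- `{1,…,n-1} ∪ {2n}` -/
def X' (n : ℕ) : Set ℕ := {i | (1 ≤ i ∧ i < n) ∨ i = 2 * n}
/-- `{n,…,2n-1}` -/
def Y (n : ℕ) : Set ℕ := {i | n ≤ i ∧ i < 2 * n}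
/-- the ground set -/
def E (n : ℕ) : Set ℕ := {i | i ≤ 2 * n}

/-- independence predicate -/
def Ind (n : ℕ) (a b : Prop) (S : Set ℕ) : Prop :=
  S ⊆ E n ∧ S.ncard ≤ n ∧ ¬ (0 ∈ S ∧ 2 * n ∈ S) ∧ (a → S ≠ X n ∧ S ≠ X' n) ∧ (b → S ≠ Y n)

lemma E_finite (n : ℕ) : (E n).Finite := Set.finite_Iic (2 * n)

lemma ncard_X (n : ℕ) : (X n).ncard = n := by
  have : X n = ((Finset.range n : Finset ℕ) : Set ℕ) := by ext i; simp [X]
  rw [this, Set.ncard_coe_finset, Finset.card_range]

lemma ncard_Y (n : ℕ) : (Y n).ncard = n := by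
  have : Y n = ((Finset.Ico n (2 * n) : Finset ℕ) : Set ℕ) := by ext i; simp [Y]
  rw [this, Set.ncard_coe_finset, Nat.card_Ico]; omega

lemma ncard_X' (n : ℕ) (hn : 1 ≤ n) : (X' n).ncard = n := by
  have : X' n = ((insert (2 * n) (Finset.Ico 1 n) : Finset ℕ) : Set ℕ) := by
    ext i; simp [X']; tauto
  rw [this, Set.ncard_coe_finset, Finset.card_insert_of_notMem (by simp; omega), Nat.card_Ico]
  omega

lemma X_sub (n : ℕ) : X n ⊆ E n := by intro i hi; simp only [X, E, mem_ofPred_eq] at *; omega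
lemma X'_sub (n : ℕ) : X' n ⊆ E n := by intro i hi; simp only [X', E, mem_ofPred_eq] at *; omega
lemma Y_sub (n : ℕ) : Y n ⊆ E n := by intro i hi; simp only [Y, E, mem_ofPred_eq] at *; omega

lemma Ind.fin {n : ℕ} {a b : Prop} {S : Set ℕ} (h : Ind n a b S) : S.Finite :=
  (E_finite n).subset h.1

/-- the matroid -/
def IM (n : ℕ) (a b : Prop) (hn : 2 ≤ n) : IndepMatroid ℕ :=
  IndepMatroid.ofFinite (E_finite n) (Ind n a b)
    (by
      refine ⟨empty_subset _, by simp, by simp, ?_, ?_⟩
      · intro _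
        constructor
        · intro h
          have := ncard_X n; rw [← h] at this; simp at this; omega
        · intro h
          have := ncard_X' n (by omega); rw [← h] at this; simp at this; omega
      · intro _ h
        have := ncard_Y n; rw [← h] at this; simp at this; omega)
    (by
      intro I J hJ hIJ
      have hfin := hJ.fin
      obtain ⟨h1, h2, h3, h4, h5⟩ := hJ
      have hle : I.ncard ≤ J.ncard := Set.ncard_le_ncard hIJ hfin
      refine ⟨hIJ.trans h1, hle.trans h2, fun h => h3 ⟨hIJ h.1, hIJ h.2⟩, ?_, ?_⟩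
      · intro ha
        obtain ⟨h6, h7⟩ := h4 ha
        constructor
        · intro h
          apply h6
          have hc := ncard_X n
          rw [← h] at hc ⊢
          exact (Set.eq_of_subset_of_ncard_le hIJ (by omega) hfin).symm
        · intro h
          apply h7
          have hc := ncard_X' n (by omega)
          rw [← h] at hc ⊢
          exact (Set.eq_of_subset_of_ncard_le hIJ (by omega) hfin).symm
      · intro hb h
        apply h5 hb
        have hc := ncard_Y n
        rw [← h] at hc ⊢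
        exact (Set.eq_of_subset_of_ncard_le hIJ (by omega) hfin).symm)
    (by
      intro I J hI hJ hlt
      by_contra hcon
      push Not at hcon
      have hIf := hI.fin
      have hJf := hJ.fin
      obtain ⟨i1, i2, i3, i4, i5⟩ := hI
      obtain ⟨j1, j2, j3, j4, j5⟩ := hJ
      -- every candidate is bad
      have hbad : ∀ e ∈ J, e ∉ I →
          (0 ∈ insert e I ∧ 2 * n ∈ insert e I) ∨ (a ∧ (insert e I = X n ∨ insert e I = X' n)) ∨
            (b ∧ insert e I = Y n) := by
        intro e he heI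
        have h := hcon e he heI
        by_contra hc
        push Not at hc
        obtain ⟨c1, c2, c3⟩ := hc
        apply h
        refine ⟨Set.insert_subset (j1 he) i1, ?_, fun hh => c1 hh.1 hh.2, ?_, c3⟩
        · rw [Set.ncard_insert_of_notMem heI hIf]; omega
        · intro ha; exact c2 ha
      have hex : ∃ e ∈ J, e ∉ I := by
        by_contra hne
        push Not at hne
        have := Set.ncard_le_ncard (show J ⊆ I from hne) hIf
        omega
      by_cases hY : ∃ e ∈ J, e ∉ I ∧ b ∧ insert e I = Y n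
      · obtain ⟨e, heJ, heI, hb, heY⟩ := hY
        have hIc : I.ncard + 1 = n := by
          rw [← Set.ncard_insert_of_notMem heI hIf, heY, ncard_Y]
        have hIY : I ⊆ Y n := by rw [← heY]; exact Set.subset_insert _ _
        have hne : I.Nonempty := by
          rw [← Set.ncard_pos hIf]; omega
        obtain ⟨y, hy⟩ := hne
        have hyY := hIY hy
        simp only [Y, mem_ofPred_eq] at hyY
        have hJsub : J ⊆ Y n := by
          intro e' he'
          by_cases he'I : e' ∈ I
          · exact hIY he'I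
          rcases hbad e' he' he'I with h | h | h
          · exfalso
            have h0 : 0 ∉ I := fun h0 => by
              have := hIY h0; simp only [Y, mem_ofPred_eq] at this; omega
            have h2 : 2 * n ∉ I := fun h0 => by
              have := hIY h0; simp only [Y, mem_ofPred_eq] at this; omega
            have e1 : 0 = e' := by
              rcases h.1 with h | h
              · exact h
              · exact absurd h h0
            have e2 : 2 * n = e' := by
              rcases h.2 with h | h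
              · exact h
              · exact absurd h h2
            omega
          · exfalso
            rcases h.2 with h | h
            · have : y ∈ X n := by rw [← h]; exact Set.mem_insert_of_mem _ hy
              simp only [X, mem_ofPred_eq] at this; omega
            · have : y ∈ X' n := by rw [← h]; exact Set.mem_insert_of_mem _ hy
              simp only [X', mem_ofPred_eq] at this; omega
          · rw [← h.2]; exact Set.mem_insert _ _
        apply j5 hb
        refine Set.eq_of_subset_of_ncard_le hJsub ?_ ((E_finite n).subset (Y_sub n))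
        rw [ncard_Y]; omega
      · by_cases hX : ∃ e ∈ J, e ∉ I ∧ a ∧ (insert e I = X n ∨ insert e I = X' n)
        · obtain ⟨e, heJ, heI, ha, heX⟩ := hX
          have hIc : I.ncard + 1 = n := by
            rw [← Set.ncard_insert_of_notMem heI hIf]
            rcases heX with h | h
            · rw [h, ncard_X]
            · rw [h, ncard_X' n (by omega)]
          have hXA : X n ⊆ insert (2 * n) (X n) := Set.subset_insert _ _
          have hX'A : X' n ⊆ insert (2 * n) (X n) := by
            intro i hi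
            simp only [X', X, mem_ofPred_eq, Set.mem_insert_iff] at *
            omega
          have hIA : I ⊆ insert (2 * n) (X n) := by
            refine (Set.subset_insert e I).trans ?_
            rcases heX with h | h
            · rw [h]; exact hXA
            · rw [h]; exact hX'A
          have hJA : J ⊆ insert (2 * n) (X n) := by
            intro e' he'
            by_cases he'I : e' ∈ I
            · exact hIA he'I
            rcases hbad e' he' he'I with h | h | h
            · have h1 := i3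
              rcases h with ⟨h0, h2⟩
              rcases h0 with h0 | h0
              · rw [← h0]; right; simp only [X, mem_ofPred_eq]; omega
              · rcases h2 with h2 | h2
                · rw [← h2]; left; rfl
                · exact absurd ⟨h0, h2⟩ h1
            · rcases h.2 with h | h
              · exact hXA (by rw [← h]; exact Set.mem_insert _ _)
              · exact hX'A (by rw [← h]; exact Set.mem_insert _ _)
            · exact absurd ⟨e', he', he'I, h⟩ hY
          have hJc : J.ncard = n := by omega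
          obtain ⟨k1, k2⟩ := j4 ha
          by_cases h2n : 2 * n ∈ J
          · -- then 0 ∉ J, J ⊆ X'
            have h0 : 0 ∉ J := fun h0 => j3 ⟨h0, h2n⟩
            apply k2
            refine Set.eq_of_subset_of_ncard_le ?_ ?_ ((E_finite n).subset (X'_sub n))
            · intro i hi
              have := hJA hi
              have hi0 : i ≠ 0 := fun h => h0 (h ▸ hi)
              simp only [X', X, mem_ofPred_eq, Set.mem_insert_iff] at *
              omega
            · rw [ncard_X' n (by omega)]; omega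
          · apply k1
            refine Set.eq_of_subset_of_ncard_le ?_ ?_ ((E_finite n).subset (X_sub n))
            · intro i hi
              have := hJA hi
              have hi0 : i ≠ 2 * n := fun h => h2n (h ▸ hi)
              simp only [X, mem_ofPred_eq, Set.mem_insert_iff] at *
              omega
            · rw [ncard_X]; omega
        · -- all bad candidates are twins
          have htw : ∀ e ∈ J, e ∉ I → (e = 0 ∧ 2 * n ∈ I) ∨ (e = 2 * n ∧ 0 ∈ I) := by
            intro e he heI
            rcases hbad e he heI with h | h | h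
            · rcases h with ⟨h0, h2⟩
              rcases h0 with h0 | h0
              · left
                refine ⟨h0.symm, ?_⟩
                rcases h2 with h2 | h2
                · omega
                · exact h2
              · right
                refine ⟨?_, h0⟩
                rcases h2 with h2 | h2
                · exact h2.symm
                · exact absurd ⟨h0, h2⟩ i3
            · exact absurd ⟨e, he, heI, h⟩ hX
            · exact absurd ⟨e, he, heI, h⟩ hY
          obtain ⟨e, heJ, heI⟩ := hex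
          have hJI : J \ I ⊆ {e} := by
            intro e' he'
            have h1 := htw e heJ heI
            have h2 := htw e' he'.1 he'.2
            simp only [Set.mem_singleton_iff]
            rcases h1 with h1 | h1 <;> rcases h2 with h2 | h2
            · omega
            · exact absurd ⟨h2.2, h1.2⟩ i3
            · exact absurd ⟨h1.2, h2.2⟩ i3
            · omega
          have hsub : I ⊆ J := by
            by_contra hns
            rw [Set.not_subset] at hns
            obtain ⟨z, hz, hzJ⟩ := hns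
            have c1 : (J \ I).ncard ≤ 1 := by
              have := Set.ncard_le_ncard hJI (Set.finite_singleton e)
              simpa using this
            have c2 : 1 ≤ (I \ J).ncard := by
              rw [Nat.succ_le_iff, Set.ncard_pos (hIf.subset Set.sdiff_subset)]
              exact ⟨z, hz, hzJ⟩
            have c3 := Set.ncard_sdiff_add_ncard I J hIf hJf
            have c4 := Set.ncard_sdiff_add_ncard J I hJf hIf
            rw [Set.union_comm] at c4
            omega
          rcases htw e heJ heI with h | h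
          · exact j3 ⟨h.1 ▸ heJ, hsub h.2⟩
          · exact j3 ⟨hsub h.2, h.1 ▸ heJ⟩)
    (fun I hI => hI.1)

/-- the matroid -/
def Mat (n : ℕ) (a b : Prop) (hn : 2 ≤ n) : Matroid ℕ := (IM n a b hn).matroid

lemma Mat_E (n : ℕ) (a b : Prop) (hn : 2 ≤ n) : (Mat n a b hn).E = E n := rfl

lemma Mat_indep (n : ℕ) (a b : Prop) (hn : 2 ≤ n) (S : Set ℕ) :
    (Mat n a b hn).Indep S ↔ Ind n a b S := Iff.rfl


/-! ### Key lemma: what a small minor of the special kind looks like -/

/-- a set of size less than `n` in `E n` is dependent only if it contains both twins -/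
lemma twins_of_not_ind {n : ℕ} (hn : 2 ≤ n) {S : Set ℕ} (hS : S ⊆ E n) (hc : S.ncard < n)
    (h : ¬ Ind n True True S) : 0 ∈ S ∧ 2 * n ∈ S := by
  by_contra hcon
  apply h
  refine ⟨hS, hc.le, hcon, fun _ => ⟨?_, ?_⟩, fun _ => ?_⟩
  · intro hh; rw [hh, ncard_X] at hc; omega
  · intro hh; rw [hh, ncard_X' n (by omega)] at hc; omega
  · intro hh; rw [hh, ncard_Y] at hc; omega

/-- a set of size at most `n` in `E n` without both twins that is dependent is one of three sets -/
lemma special_of_not_ind {n : ℕ} {S : Set ℕ} (hS : S ⊆ E n) (hc : S.ncard ≤ n)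
    (ht : ¬ (0 ∈ S ∧ 2 * n ∈ S)) (h : ¬ Ind n True True S) : S = X n ∨ S = X' n ∨ S = Y n := by
  by_contra hcon
  push Not at hcon
  exact h ⟨hS, hc, ht, fun _ => ⟨hcon.1, hcon.2.1⟩, fun _ => hcon.2.2⟩

lemma common {n : ℕ} (hn : 2 ≤ n) {I : Set ℕ} (f : ℕ → ℕ) (a b : Prop)
    (hI : Ind n True True I)
    (hinj : Set.InjOn f (E 3)) (hmemE : ∀ i ∈ E 3, f i ∈ E n)
    (hmemI : ∀ i ∈ E 3, f i ∉ I)
    (hind : ∀ S ⊆ E 3, (Ind 3 a b S ↔ Ind n True True (f '' S ∪ I)))
    (T : Set ℕ) (hT : Ind 3 a b T) (hT3 : T.ncard = 3) :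
    (0 ∉ I ∧ 2 * n ∉ I) ∧ ((f 0 = 0 ∧ f 6 = 2 * n) ∨ (f 0 = 2 * n ∧ f 6 = 0)) ∧
      I.ncard + 3 = n := by
  have hIf := hI.fin
  have hcard : ∀ S ⊆ E 3, (f '' S ∪ I).ncard = S.ncard + I.ncard := by
    intro S hS
    have hSf : S.Finite := (E_finite 3).subset hS
    rw [Set.ncard_union_eq _ (hSf.image f) hIf, (hinj.mono hS).ncard_image]
    rw [Set.disjoint_left]
    rintro _ ⟨i, hi, rfl⟩
    exact hmemI i (hS hi)
  have hsubE : ∀ S ⊆ E 3, f '' S ∪ I ⊆ E n := by
    intro S hS
    refine Set.union_subset ?_ hI.1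
    rintro _ ⟨i, hi, rfl⟩
    exact hmemE i (hS hi)
  have hle : I.ncard + 3 ≤ n := by
    have h1 := ((hind T hT.1).1 hT).2.1
    rw [hcard T hT.1, hT3] at h1; omega
  have hsub06 : ({0, 6} : Set ℕ) ⊆ E 3 := by
    intro i hi; simp only [Set.mem_insert_iff, Set.mem_singleton_iff, E, mem_ofPred_eq] at *; omega
  have hnc : ({0, 6} : Set ℕ).ncard = 2 := Set.ncard_pair (by norm_num)
  have hnot : ¬ Ind 3 a b {0, 6} := fun h => h.2.2.1 (by simp)
  have htw := twins_of_not_ind hn (hsubE _ hsub06) (by rw [hcard _ hsub06, hnc]; omega)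
    (fun h => hnot ((hind _ hsub06).2 h))
  have h3 : (3 : ℕ) ≤ 3 := le_refl _
  have hsing : ∀ j, (j = 0 ∨ j = 6) → Ind 3 a b {j} := by
    intro j hj
    refine ⟨?_, by simp, ?_, ?_, ?_⟩
    · intro i hi; simp only [Set.mem_singleton_iff, E, mem_ofPred_eq] at *; omega
    · simp only [Set.mem_singleton_iff]; omega
    · intro _
      refine ⟨fun h => ?_, fun h => ?_⟩
      · have := ncard_X 3; rw [← h] at this; simp at this
      · have := ncard_X' 3 (by omega); rw [← h] at this; simp at this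
    · intro _ h
      have := ncard_Y 3; rw [← h] at this; simp at this
  have hs0 : Ind n True True (f '' {0} ∪ I) :=
    (hind {0} (by intro i hi; simp only [Set.mem_singleton_iff, E, mem_ofPred_eq] at *; omega)).1
      (hsing 0 (Or.inl rfl))
  have hs6 : Ind n True True (f '' {6} ∪ I) :=
    (hind {6} (by intro i hi; simp only [Set.mem_singleton_iff, E, mem_ofPred_eq] at *; omega)).1
      (hsing 6 (Or.inr rfl))
  have t0 := hs0.2.2.1
  have t6 := hs6.2.2.1
  simp only [Set.image_singleton, Set.image_insert_eq, Set.mem_union, Set.mem_insert_iff,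
    Set.mem_singleton_iff] at t0 t6 htw
  have hI3 := hI.2.2.1
  have hA : 0 ∉ I ∧ 2 * n ∉ I := by
    constructor
    · intro h
      rcases htw.2 with (h2 | h2) | h2
      · exact t0 ⟨Or.inr h, Or.inl h2⟩
      · exact t6 ⟨Or.inr h, Or.inl h2⟩
      · exact hI3 ⟨h, h2⟩
    · intro h
      rcases htw.1 with (h2 | h2) | h2
      · exact t0 ⟨Or.inl h2, Or.inr h⟩
      · exact t6 ⟨Or.inl h2, Or.inr h⟩
      · exact hI3 ⟨h2, h⟩
  have hB : (f 0 = 0 ∧ f 6 = 2 * n) ∨ (f 0 = 2 * n ∧ f 6 = 0) := by
    rcases htw.1 with (h1 | h1) | h1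
    · rcases htw.2 with (h2 | h2) | h2
      · omega
      · left; exact ⟨h1.symm, h2.symm⟩
      · exact absurd h2 hA.2
    · rcases htw.2 with (h2 | h2) | h2
      · right; exact ⟨h2.symm, h1.symm⟩
      · omega
      · exact absurd h2 hA.2
    · exact absurd h1 hA.1
  refine ⟨hA, hB, ?_⟩
  by_contra hne
  have hlt : I.ncard + 4 ≤ n := by omega
  -- two four-element sets
  have hY : ∀ j, (j = 4 ∨ j = 5) → f '' {1, 2, 3, j} ∪ I = Y n := by
    intro j hj
    have hsub : ({1, 2, 3, j} : Set ℕ) ⊆ E 3 := by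
      intro i hi; simp only [Set.mem_insert_iff, Set.mem_singleton_iff, E, mem_ofPred_eq] at *
      omega
    have hc4 : ({1, 2, 3, j} : Set ℕ).ncard = 4 := by
      rcases hj with rfl | rfl
      · have : ({1, 2, 3, 4} : Set ℕ) = (({1, 2, 3, 4} : Finset ℕ) : Set ℕ) := by simp
        rw [this, Set.ncard_coe_finset]; decide
      · have : ({1, 2, 3, 5} : Set ℕ) = (({1, 2, 3, 5} : Finset ℕ) : Set ℕ) := by simp
        rw [this, Set.ncard_coe_finset]; decide
    have hn4 : ¬ Ind 3 a b {1, 2, 3, j} := fun h => by have := h.2.1; omega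
    have hno0 : ∀ t, (t = 0 ∨ t = 2 * n) → t ∉ f '' {1, 2, 3, j} ∪ I := by
      intro t ht hmem
      rcases hmem with ⟨i, hi, hit⟩ | hmem
      · have hiE := hsub hi
        have hi0 : i ≠ 0 := by
          simp only [Set.mem_insert_iff, Set.mem_singleton_iff] at hi; omega
        have hi6 : i ≠ 6 := by
          simp only [Set.mem_insert_iff, Set.mem_singleton_iff] at hi; omega
        have h0E : (0 : ℕ) ∈ E 3 := by simp [E]
        have h6E : (6 : ℕ) ∈ E 3 := by simp [E]
        have k0 : f i ≠ f 0 := fun h => hi0 (hinj hiE h0E h)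
        have k6 : f i ≠ f 6 := fun h => hi6 (hinj hiE h6E h)
        rcases hB with ⟨g1, g2⟩ | ⟨g1, g2⟩ <;> rcases ht with rfl | rfl <;> omega
      · rcases ht with rfl | rfl
        · exact hA.1 hmem
        · exact hA.2 hmem
    have := special_of_not_ind (hsubE _ hsub) (by rw [hcard _ hsub, hc4]; omega)
      (fun h => hno0 0 (Or.inl rfl) h.1) (fun h => hn4 ((hind _ hsub).2 h))
    rcases this with h | h | h
    · exfalso
      apply hno0 0 (Or.inl rfl)
      rw [h]; simp only [X, mem_ofPred_eq]; omega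
    · exfalso
      apply hno0 (2 * n) (Or.inr rfl)
      rw [h]; exact Or.inr rfl
    · exact h
  have h4 := hY 4 (Or.inl rfl)
  have h5 := hY 5 (Or.inr rfl)
  have hmem : f 4 ∈ f '' {1, 2, 3, 5} ∪ I := by
    rw [h5, ← h4]; left; exact ⟨4, by simp, rfl⟩
  rcases hmem with ⟨i, hi, hi4⟩ | hmem
  · have h4E : (4 : ℕ) ∈ E 3 := by simp [E]
    have hiE : i ∈ E 3 := by
      simp only [Set.mem_insert_iff, Set.mem_singleton_iff, E, mem_ofPred_eq] at *; omega
    have := hinj hiE h4E hi4
    simp only [Set.mem_insert_iff, Set.mem_singleton_iff] at hi; omega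
  · exact hmemI 4 (by simp [E]) hmem

lemma card3 (i j k : ℕ) (hij : i ≠ j) (hik : i ≠ k) (hjk : j ≠ k) :
    ({i, j, k} : Set ℕ).ncard = 3 := by
  rw [Set.ncard_eq_three]; exact ⟨i, j, k, hij, hik, hjk, rfl⟩

/-- first kind of small minor: contracted elements in `X`, deleted elements in `Y` -/
lemma key1 {n : ℕ} (hn : 2 ≤ n) {I D : Set ℕ} (f : ℕ → ℕ)
    (hI : Ind n True True I) (hID : Disjoint I D)
    (hinj : Set.InjOn f (E 3)) (hmemE : ∀ i ∈ E 3, f i ∈ E n)
    (hmemI : ∀ i ∈ E 3, f i ∉ I) (hmemD : ∀ i ∈ E 3, f i ∉ D)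
    (hind : ∀ S ⊆ E 3, (Ind 3 True False S ↔ Ind n True True (f '' S ∪ I))) :
    (∀ x ∈ I, 1 ≤ x ∧ x < n) ∧ (∀ x ∈ D, x ∈ E n → x ∈ Y n) := by
  have hT : Ind 3 True False {3, 4, 5} := by
    refine ⟨?_, (card3 3 4 5 (by norm_num) (by norm_num) (by norm_num)).le, by simp, ?_, ?_⟩
    · intro i hi; simp only [Set.mem_insert_iff, Set.mem_singleton_iff, E, mem_ofPred_eq] at *
      omega
    · intro _
      constructor
      · intro h
        have : (0 : ℕ) ∈ ({3, 4, 5} : Set ℕ) := by rw [h]; simp [X]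
        simp at this
      · intro h
        have : (6 : ℕ) ∈ ({3, 4, 5} : Set ℕ) := by rw [h]; simp [X']
        simp at this
    · intro h; exact absurd h (by trivial)
  obtain ⟨hA, hB, hC⟩ := common hn f True False hI hinj hmemE hmemI hind {3, 4, 5} hT
    (card3 3 4 5 (by norm_num) (by norm_num) (by norm_num))
  have hsub : ({0, 1, 2} : Set ℕ) ⊆ E 3 := by
    intro i hi; simp only [Set.mem_insert_iff, Set.mem_singleton_iff, E, mem_ofPred_eq] at *; omega
  have hX3 : ({0, 1, 2} : Set ℕ) = X 3 := by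
    ext i; simp only [Set.mem_insert_iff, Set.mem_singleton_iff, X, mem_ofPred_eq]; omega
  have hnot : ¬ Ind 3 True False {0, 1, 2} := fun h => (h.2.2.2.1 trivial).1 hX3
  have hsubE : f '' {0, 1, 2} ∪ I ⊆ E n := by
    refine Set.union_subset ?_ hI.1
    rintro _ ⟨i, hi, rfl⟩
    exact hmemE i (hsub hi)
  have hcard : (f '' {0, 1, 2} ∪ I).ncard = 3 + I.ncard := by
    have hSf : ({0, 1, 2} : Set ℕ).Finite := (E_finite 3).subset hsub
    rw [Set.ncard_union_eq _ (hSf.image f) hI.fin, (hinj.mono hsub).ncard_image,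
      card3 0 1 2 (by norm_num) (by norm_num) (by norm_num)]
    rw [Set.disjoint_left]
    rintro _ ⟨i, hi, rfl⟩
    exact hmemI i (hsub hi)
  have h06 : f 6 ∉ f '' {0, 1, 2} ∪ I := by
    rintro (⟨i, hi, h⟩ | h)
    · have := hinj (hsub hi) (show (6 : ℕ) ∈ E 3 by simp [E]) h
      simp only [Set.mem_insert_iff, Set.mem_singleton_iff] at hi; omega
    · exact hmemI 6 (by simp [E]) h
  have hf0 : f 0 ∈ f '' {0, 1, 2} ∪ I := Or.inl ⟨0, by simp, rfl⟩
  have hsp := special_of_not_ind hsubE (by rw [hcard]; omega)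
    (by
      rintro ⟨h1, h2⟩
      rcases hB with ⟨g1, g2⟩ | ⟨g1, g2⟩
      · exact h06 (g2 ▸ h2)
      · exact h06 (g2 ▸ h1))
    (fun h => hnot ((hind _ hsub).2 h))
  have hnY : f '' {0, 1, 2} ∪ I ≠ Y n := by
    intro h
    rw [h] at hf0
    simp only [Y, mem_ofPred_eq] at hf0
    rcases hB with ⟨g1, g2⟩ | ⟨g1, g2⟩ <;> omega
  have hsub2 : ∀ x, x ∈ f '' {0, 1, 2} ∪ I → (x < n ∨ x = 2 * n) := by
    intro x hx
    rcases hsp with h | h | h
    · rw [h] at hx; simp only [X, mem_ofPred_eq] at hx; omega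
    · rw [h] at hx; simp only [X', mem_ofPred_eq] at hx; omega
    · exact absurd h hnY
  have hsup : ∀ x, 1 ≤ x → x < n → x ∈ f '' {0, 1, 2} ∪ I := by
    intro x h1 h2
    rcases hsp with h | h | h
    · rw [h]; exact h2
    · rw [h]; left; exact ⟨h1, h2⟩
    · exact absurd h hnY
  constructor
  · intro x hx
    have h1 : x ≠ 0 := fun h => hA.1 (h ▸ hx)
    have h2 : x ≠ 2 * n := fun h => hA.2 (h ▸ hx)
    have := hsub2 x (Or.inr hx)
    omega
  · intro x hx hxE
    have hx0 : x ≠ f 0 := fun h => hmemD 0 (by simp [E]) (h ▸ hx)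
    have hx6 : x ≠ f 6 := fun h => hmemD 6 (by simp [E]) (h ▸ hx)
    have hx1 : ¬ (1 ≤ x ∧ x < n) := by
      rintro ⟨h1, h2⟩
      rcases hsup x h1 h2 with ⟨i, hi, h⟩ | h
      · exact hmemD i (hsub hi) (h ▸ hx)
      · exact (Set.disjoint_left.1 hID) h hx
    simp only [Y, E, mem_ofPred_eq] at *
    rcases hB with ⟨g1, g2⟩ | ⟨g1, g2⟩ <;> omega

/-- second kind of small minor: contracted elements in `Y`, deleted elements in `X` -/
lemma key2 {n : ℕ} (hn : 2 ≤ n) {I D : Set ℕ} (f : ℕ → ℕ)
    (hI : Ind n True True I) (hID : Disjoint I D)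
    (hinj : Set.InjOn f (E 3)) (hmemE : ∀ i ∈ E 3, f i ∈ E n)
    (hmemI : ∀ i ∈ E 3, f i ∉ I) (hmemD : ∀ i ∈ E 3, f i ∉ D)
    (hind : ∀ S ⊆ E 3, (Ind 3 False True S ↔ Ind n True True (f '' S ∪ I))) :
    (∀ x ∈ I, x ∈ Y n) ∧ (∀ x ∈ D, x ∈ E n → (1 ≤ x ∧ x < n)) := by
  have hT : Ind 3 False True {0, 1, 2} := by
    refine ⟨?_, (card3 0 1 2 (by norm_num) (by norm_num) (by norm_num)).le, by simp, ?_, ?_⟩
    · intro i hi; simp only [Set.mem_insert_iff, Set.mem_singleton_iff, E, mem_ofPred_eq] at *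
      omega
    · intro h; exact absurd h (by trivial)
    · intro _ h
      have : (3 : ℕ) ∈ ({0, 1, 2} : Set ℕ) := by rw [h]; simp [Y]
      simp at this
  obtain ⟨hA, hB, hC⟩ := common hn f False True hI hinj hmemE hmemI hind {0, 1, 2} hT
    (card3 0 1 2 (by norm_num) (by norm_num) (by norm_num))
  have hsub : ({3, 4, 5} : Set ℕ) ⊆ E 3 := by
    intro i hi; simp only [Set.mem_insert_iff, Set.mem_singleton_iff, E, mem_ofPred_eq] at *; omega
  have hY3 : ({3, 4, 5} : Set ℕ) = Y 3 := by
    ext i; simp only [Set.mem_insert_iff, Set.mem_singleton_iff, Y, mem_ofPred_eq]; omega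
  have hnot : ¬ Ind 3 False True {3, 4, 5} := fun h => (h.2.2.2.2 trivial) hY3
  have hsubE : f '' {3, 4, 5} ∪ I ⊆ E n := by
    refine Set.union_subset ?_ hI.1
    rintro _ ⟨i, hi, rfl⟩
    exact hmemE i (hsub hi)
  have hcard : (f '' {3, 4, 5} ∪ I).ncard = 3 + I.ncard := by
    have hSf : ({3, 4, 5} : Set ℕ).Finite := (E_finite 3).subset hsub
    rw [Set.ncard_union_eq _ (hSf.image f) hI.fin, (hinj.mono hsub).ncard_image,
      card3 3 4 5 (by norm_num) (by norm_num) (by norm_num)]
    rw [Set.disjoint_left]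
    rintro _ ⟨i, hi, rfl⟩
    exact hmemI i (hsub hi)
  have h6 : f 6 ∉ f '' {3, 4, 5} ∪ I := by
    rintro (⟨i, hi, h⟩ | h)
    · have := hinj (hsub hi) (show (6 : ℕ) ∈ E 3 by simp [E]) h
      simp only [Set.mem_insert_iff, Set.mem_singleton_iff] at hi; omega
    · exact hmemI 6 (by simp [E]) h
  have h0 : f 0 ∉ f '' {3, 4, 5} ∪ I := by
    rintro (⟨i, hi, h⟩ | h)
    · have := hinj (hsub hi) (show (0 : ℕ) ∈ E 3 by simp [E]) h
      simp only [Set.mem_insert_iff, Set.mem_singleton_iff] at hi; omega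
    · exact hmemI 0 (by simp [E]) h
  have n0 : 0 ∉ f '' {3, 4, 5} ∪ I := by
    rcases hB with ⟨g1, g2⟩ | ⟨g1, g2⟩
    · rw [← g1]; exact h0
    · rw [← g2]; exact h6
  have n2 : 2 * n ∉ f '' {3, 4, 5} ∪ I := by
    rcases hB with ⟨g1, g2⟩ | ⟨g1, g2⟩
    · rw [← g2]; exact h6
    · rw [← g1]; exact h0
  have hsp := special_of_not_ind hsubE (by rw [hcard]; omega) (fun h => n0 h.1)
    (fun h => hnot ((hind _ hsub).2 h))
  have hY : f '' {3, 4, 5} ∪ I = Y n := by
    rcases hsp with h | h | h
    · exfalso; apply n0; rw [h]; simp only [X, mem_ofPred_eq]; omega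
    · exfalso; apply n2; rw [h]; exact Or.inr rfl
    · exact h
  constructor
  · intro x hx
    rw [← hY]; exact Or.inr hx
  · intro x hx hxE
    have hx0 : x ≠ f 0 := fun h => hmemD 0 (by simp [E]) (h ▸ hx)
    have hx6 : x ≠ f 6 := fun h => hmemD 6 (by simp [E]) (h ▸ hx)
    have hx1 : x ∉ Y n := by
      rw [← hY]
      rintro (⟨i, hi, h⟩ | h)
      · exact hmemD i (hsub hi) (h ▸ hx)
      · exact (Set.disjoint_left.1 hID) h hx
    simp only [Y, E, mem_ofPred_eq] at *
    rcases hB with ⟨g1, g2⟩ | ⟨g1, g2⟩ <;> omega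


/-! ### Minors up to isomorphism -/

/-- `M` has a minor isomorphic to `N` -/
def IsoMinor (N M : Matroid ℕ) : Prop :=
  ∃ N' : Matroid ℕ, N'.IsMinor M ∧
    ∃ e : N.E ≃ N'.E, ∀ I : Set N.E,
      N.Indep (Subtype.val '' I) ↔ N'.Indep (Subtype.val '' (e '' I))

/-- build an isomorphism from a function -/
lemma isoMinor_of_fun {N M N' : Matroid ℕ} (hm : N'.IsMinor M) (f : ℕ → ℕ)
    (hf : Set.BijOn f N.E N'.E) (h : ∀ S ⊆ N.E, (N.Indep S ↔ N'.Indep (f '' S))) :
    IsoMinor N M := by
  refine ⟨N', hm, Set.BijOn.equiv f hf, fun I => ?_⟩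
  rw [h _ (by rintro _ ⟨x, _, rfl⟩; exact x.2)]
  have : f '' (Subtype.val '' I) = Subtype.val '' ((Set.BijOn.equiv f hf) '' I) := by
    ext x
    simp only [Set.mem_image, exists_exists_and_eq_and]
    rfl
  rw [this]

/-- extract a function from an isomorphism -/
lemma fun_of_iso {N N' : Matroid ℕ} (e : N.E ≃ N'.E)
    (h : ∀ I : Set N.E, N.Indep (Subtype.val '' I) ↔ N'.Indep (Subtype.val '' (e '' I))) :
    ∃ f : ℕ → ℕ, Set.InjOn f N.E ∧ (∀ i ∈ N.E, f i ∈ N'.E) ∧
      ∀ S ⊆ N.E, (N.Indep S ↔ N'.Indep (f '' S)) := by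
  classical
  refine ⟨fun i => if hi : i ∈ N.E then (e ⟨i, hi⟩ : ℕ) else 0, ?_, ?_, ?_⟩
  · intro i hi j hj hij
    simp only [hi, hj, dite_true] at hij
    have := e.injective (Subtype.ext hij)
    exact congrArg Subtype.val this
  · intro i hi
    simp only [hi, dite_true]
    exact (e ⟨i, hi⟩).2
  · intro S hS
    have h1 : S = Subtype.val '' {x : N.E | (x : ℕ) ∈ S} := by
      ext x
      constructor
      · intro hx; exact ⟨⟨x, hS hx⟩, hx, rfl⟩
      · rintro ⟨y, hy, rfl⟩; exact hy
    have h2 : (fun i => if hi : i ∈ N.E then (e ⟨i, hi⟩ : ℕ) else 0) '' S =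
        Subtype.val '' (e '' {x : N.E | (x : ℕ) ∈ S}) := by
      ext x
      constructor
      · rintro ⟨y, hy, rfl⟩
        refine ⟨e ⟨y, hS hy⟩, ⟨⟨y, hS hy⟩, hy, rfl⟩, ?_⟩
        simp [hS hy]
      · rintro ⟨_, ⟨y, hy, rfl⟩, rfl⟩
        refine ⟨y, hy, ?_⟩
        simp
    rw [h2, ← h, ← h1]

/-- independence in `M ／ I ＼ D` -/
lemma minor_indep {M : Matroid ℕ} {I D J : Set ℕ} (hI : M.Indep I) :
    ((M.contract I).delete D).Indep J ↔ Disjoint J I ∧ M.Indep (J ∪ I) ∧ Disjoint J D := by
  rw [Matroid.delete_indep_iff, hI.contract_indep_iff, and_assoc]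

/-- conclusion for a given presentation of a minor with an iso copy of the first small matroid -/
lemma use_key1 {n : ℕ} (hn : 2 ≤ n) {I D : Set ℕ}
    (hI : (Mat n True True hn).Indep I) (hID : Disjoint I D)
    (e : (Mat 3 True False (by norm_num)).E ≃ (((Mat n True True hn).contract I).delete D).E)
    (h : ∀ S : Set (Mat 3 True False (by norm_num)).E,
      (Mat 3 True False (by norm_num)).Indep (Subtype.val '' S) ↔
        (((Mat n True True hn).contract I).delete D).Indep (Subtype.val '' (e '' S))) :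
    (∀ x ∈ I, 1 ≤ x ∧ x < n) ∧ (∀ x ∈ D, x ∈ E n → x ∈ Y n) := by
  obtain ⟨f, hinj, hmem, hind⟩ := fun_of_iso e h
  have hm : ∀ i ∈ E 3, f i ∈ E n ∧ f i ∉ I ∧ f i ∉ D := by
    intro i hi
    have := hmem i hi
    exact ⟨this.1.1, this.1.2, this.2⟩
  refine key1 hn f hI hID hinj (fun i hi => (hm i hi).1) (fun i hi => (hm i hi).2.1)
    (fun i hi => (hm i hi).2.2) ?_
  intro S hS
  have h1 := hind S hS
  rw [minor_indep hI] at h1
  constructor
  · intro hh; exact (h1.1 hh).2.1
  · intro hh
    refine h1.2 ⟨?_, hh, ?_⟩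
    · rw [Set.disjoint_left]; rintro _ ⟨i, hi, rfl⟩; exact (hm i (hS hi)).2.1
    · rw [Set.disjoint_left]; rintro _ ⟨i, hi, rfl⟩; exact (hm i (hS hi)).2.2

lemma use_key2 {n : ℕ} (hn : 2 ≤ n) {I D : Set ℕ}
    (hI : (Mat n True True hn).Indep I) (hID : Disjoint I D)
    (e : (Mat 3 False True (by norm_num)).E ≃ (((Mat n True True hn).contract I).delete D).E)
    (h : ∀ S : Set (Mat 3 False True (by norm_num)).E,
      (Mat 3 False True (by norm_num)).Indep (Subtype.val '' S) ↔
        (((Mat n True True hn).contract I).delete D).Indep (Subtype.val '' (e '' S))) :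
    (∀ x ∈ I, x ∈ Y n) ∧ (∀ x ∈ D, x ∈ E n → 1 ≤ x ∧ x < n) := by
  obtain ⟨f, hinj, hmem, hind⟩ := fun_of_iso e h
  have hm : ∀ i ∈ E 3, f i ∈ E n ∧ f i ∉ I ∧ f i ∉ D := by
    intro i hi
    have := hmem i hi
    exact ⟨this.1.1, this.1.2, this.2⟩
  refine key2 hn f hI hID hinj (fun i hi => (hm i hi).1) (fun i hi => (hm i hi).2.1)
    (fun i hi => (hm i hi).2.2) ?_
  intro S hS
  have h1 := hind S hS
  rw [minor_indep hI] at h1
  constructor
  · intro hh; exact (h1.1 hh).2.1
  · intro hh
    refine h1.2 ⟨?_, hh, ?_⟩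
    · rw [Set.disjoint_left]; rintro _ ⟨i, hi, rfl⟩; exact (hm i (hS hi)).2.1
    · rw [Set.disjoint_left]; rintro _ ⟨i, hi, rfl⟩; exact (hm i (hS hi)).2.2

/-- singletons are independent -/
lemma indep_singleton {n : ℕ} (hn : 2 ≤ n) {x : ℕ} (hx : x ∈ E n) :
    (Mat n True True hn).Indep {x} := by
  refine ⟨Set.singleton_subset_iff.2 hx, by simp; omega, ?_, ?_, ?_⟩
  · simp only [Set.mem_singleton_iff]; omega
  · intro _
    refine ⟨fun h => ?_, fun h => ?_⟩
    · have := ncard_X n; rw [← h] at this; simp at this; omega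
    · have := ncard_X' n (by omega); rw [← h] at this; simp at this; omega
  · intro _ h
    have := ncard_Y n; rw [← h] at this; simp at this; omega

/-- If `N1 ≤m N0 = M ／ C ＼ D` then `N1 = M ／ J ＼ D'` with `J` independent, containing a prescribed
element of `C` or with `D'` containing `D`. -/
lemma present {n : ℕ} (hn : 2 ≤ n) {C D : Set ℕ} (hC : C ⊆ E n)
    (hCD : Disjoint C D) {N1 : Matroid ℕ}
    (h : N1.IsMinor (((Mat n True True hn).contract C).delete D)) (x : ℕ) (hx : x ∈ C ∨ x ∈ D) :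
    ∃ J D' : Set ℕ, (Mat n True True hn).Indep J ∧ Disjoint J D' ∧
      N1 = ((Mat n True True hn).contract J).delete D' ∧ (x ∈ C → x ∈ J) ∧ (x ∈ D → x ∈ D') := by
  set M := Mat n True True hn with hM
  obtain ⟨C1, D1, hC1, hD1, hd, rfl⟩ := h.exists_eq_contract_delete_disjoint
  have hC1D : Disjoint C1 D := by
    rw [Set.disjoint_left]; intro y hy hyD; exact (hC1 hy).2 hyD
  have hD1C : Disjoint D1 C := by
    rw [Set.disjoint_left]; intro y hy hyC; exact (hD1 hy).1.2 hyC
  have hC1E : C1 ⊆ M.E := fun y hy => (hC1 hy).1.1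
  rw [Matroid.contract_delete_contract_delete _ _ _ _ _ hC1D]
  have hCE : C ∪ C1 ⊆ M.E := Set.union_subset hC hC1E
  have hex : ∃ J, M.IsBasis J (C ∪ C1) ∧ (x ∈ C → x ∈ J) := by
    by_cases hxC : x ∈ C
    · obtain ⟨J, hJ, hxJ⟩ := (indep_singleton hn (hC hxC)).subset_isBasis_of_subset
        (Set.singleton_subset_iff.2 (Or.inl hxC) : {x} ⊆ C ∪ C1) hCE
      exact ⟨J, hJ, fun _ => hxJ rfl⟩
    · obtain ⟨J, hJ⟩ := M.exists_isBasis (C ∪ C1) hCE
      exact ⟨J, hJ, fun h => absurd h hxC⟩
  obtain ⟨J, hJ, hxJ⟩ := hex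
  refine ⟨J, ((C ∪ C1) \ J) ∪ (D ∪ D1), hJ.indep, ?_, ?_, hxJ, fun h => Or.inr (Or.inl h)⟩
  · rw [Set.disjoint_left]
    rintro y hy (⟨_, h2⟩ | h2 | h2)
    · exact h2 hy
    · rcases hJ.subset hy with h3 | h3
      · exact Set.disjoint_left.1 hCD h3 h2
      · exact Set.disjoint_left.1 hC1D h3 h2
    · rcases hJ.subset hy with h3 | h3
      · exact Set.disjoint_left.1 hD1C h2 h3
      · exact Set.disjoint_left.1 hd h3 h2
  · rw [hJ.contract_eq_contract_delete, Matroid.delete_delete]

/-- no proper minor has both small matroids as minors -/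
lemma no_proper {n : ℕ} (hn : 2 ≤ n) {N0 : Matroid ℕ} (h0 : N0.IsMinor (Mat n True True hn))
    (hne : N0.E ≠ E n) (h1 : IsoMinor (Mat 3 True False (by norm_num)) N0)
    (h2 : IsoMinor (Mat 3 False True (by norm_num)) N0) : False := by
  obtain ⟨C, D, hC, hD, hd, rfl⟩ := h0.exists_eq_contract_delete_disjoint
  have hx : ∃ x, x ∈ E n ∧ (x ∈ C ∨ x ∈ D) := by
    by_contra hcon
    push Not at hcon
    apply hne
    ext x
    constructor
    · intro hx; exact hx.1.1
    · intro hx; exact ⟨⟨hx, (hcon x hx).1⟩, (hcon x hx).2⟩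
  obtain ⟨x, hxE, hx⟩ := hx
  obtain ⟨N1, hN1, e1, he1⟩ := h1
  obtain ⟨N2, hN2, e2, he2⟩ := h2
  obtain ⟨J1, D1, hJ1, hd1, rfl, hxC1, hxD1⟩ := present hn hC hd hN1 x hx
  obtain ⟨J2, D2, hJ2, hd2, rfl, hxC2, hxD2⟩ := present hn hC hd hN2 x hx
  have k1 := use_key1 hn hJ1 hd1 e1 he1
  have k2 := use_key2 hn hJ2 hd2 e2 he2
  rcases hx with hx | hx
  · have a1 := k1.1 x (hxC1 hx)
    have a2 := k2.1 x (hxC2 hx)
    simp only [Y, mem_ofPred_eq] at a2; omega
  · have a1 := k1.2 x (hxD1 hx) hxE
    have a2 := k2.2 x (hxD2 hx) hxE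
    simp only [Y, mem_ofPred_eq] at a1; omega

/-- the embedding of `{0,…,6}` -/
def emb (n : ℕ) (i : ℕ) : ℕ := if i ≤ 2 then i else if i ≤ 5 then n + (i - 3) else 2 * n

lemma emb_cases (n i : ℕ) (hi : i ≤ 6) :
    (i ≤ 2 ∧ emb n i = i) ∨ (3 ≤ i ∧ i ≤ 5 ∧ emb n i + 3 = n + i) ∨ (i = 6 ∧ emb n i = 2 * n) := by
  unfold emb; split_ifs <;> omega

lemma emb_inj {n : ℕ} (hn : 4 ≤ n) : Set.InjOn (emb n) (E 3) := by
  intro i hi j hj hij
  have hi' : i ≤ 6 := hi
  have hj' : j ≤ 6 := hj
  rcases emb_cases n i hi' with h | h | h <;> rcases emb_cases n j hj' with h' | h' | h' <;> omega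

lemma emb_bij {n : ℕ} (hn : 4 ≤ n) {I D : Set ℕ}
    (h : ∀ x, (x ∈ E n ∧ x ∉ I ∧ x ∉ D) ↔ (x ≤ 2 ∨ (n ≤ x ∧ x ≤ n + 2) ∨ x = 2 * n)) :
    Set.BijOn (emb n) (E 3) ((E n \ I) \ D) := by
  refine ⟨?_, emb_inj hn, ?_⟩
  · intro i hi
    have hi' : i ≤ 6 := hi
    have := (h (emb n i)).2 (by rcases emb_cases n i hi' with h | h | h <;> omega)
    exact ⟨⟨this.1, this.2.1⟩, this.2.2⟩
  · intro x hx
    have := (h x).1 ⟨hx.1.1, hx.1.2, hx.2⟩
    rcases this with h | h | h
    · refine ⟨x, show x ≤ 6 by omega, ?_⟩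
      rcases emb_cases n x (by omega) with h | h | h <;> omega
    · refine ⟨x - n + 3, show x - n + 3 ≤ 6 by omega, ?_⟩
      rcases emb_cases n (x - n + 3) (by omega) with h | h | h <;> omega
    · refine ⟨6, show 6 ≤ 6 by omega, ?_⟩
      rcases emb_cases n 6 (by omega) with h | h | h <;> omega

/-- `f '' S ∪ I = T` iff `S` is the preimage of `T` -/
lemma image_union_eq_iff {f : ℕ → ℕ} {I T S A : Set ℕ} (hf : Set.InjOn f A) (hS : S ⊆ A)
    (hI : I ⊆ T) (hT : T ⊆ f '' A ∪ I) (hd : ∀ i ∈ A, f i ∉ I) :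
    f '' S ∪ I = T ↔ S = {i | i ∈ A ∧ f i ∈ T} := by
  constructor
  · intro h
    ext i
    constructor
    · intro hi
      exact ⟨hS hi, by rw [← h]; exact Or.inl ⟨i, hi, rfl⟩⟩
    · rintro ⟨hi, hiT⟩
      rw [← h] at hiT
      rcases hiT with ⟨j, hj, hji⟩ | hiI
      · rw [← hf (hS hj) hi hji]; exact hj
      · exact absurd hiI (hd i hi)
  · intro h
    ext x
    constructor
    · rintro (⟨i, hi, rfl⟩ | hx)
      · rw [h] at hi; exact hi.2
      · exact hI hx
    · intro hx
      rcases hT hx with ⟨i, hi, rfl⟩ | hxI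
      · left; exact ⟨i, by rw [h]; exact ⟨hi, hx⟩, rfl⟩
      · exact Or.inr hxI

lemma card_image_union {n : ℕ} (hn : 4 ≤ n) {I S : Set ℕ} (hS : S ⊆ E 3) (hIf : I.Finite)
    (hd : ∀ i ∈ E 3, emb n i ∉ I) : (emb n '' S ∪ I).ncard = S.ncard + I.ncard := by
  have hSf : S.Finite := (E_finite 3).subset hS
  rw [Set.ncard_union_eq _ (hSf.image _) hIf, ((emb_inj hn).mono hS).ncard_image]
  rw [Set.disjoint_left]
  rintro _ ⟨i, hi, rfl⟩
  exact hd i (hS hi)

lemma mem_image_union {n : ℕ} (hn : 4 ≤ n) {I S : Set ℕ} (hS : S ⊆ E 3)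
    (hd : ∀ i ∈ E 3, emb n i ∉ I) (i : ℕ) (hi : i ∈ E 3) :
    emb n i ∈ emb n '' S ∪ I ↔ i ∈ S := by
  constructor
  · rintro (⟨j, hj, hji⟩ | h)
    · rw [← emb_inj hn (hS hj) hi hji]; exact hj
    · exact absurd h (hd i hi)
  · intro h; exact Or.inl ⟨i, h, rfl⟩

lemma has1 {n : ℕ} (hn : 4 ≤ n) :
    IsoMinor (Mat 3 True False (by norm_num)) (Mat n True True (by omega)) := by
  set I : Set ℕ := {i | 3 ≤ i ∧ i < n} with hIdef
  set D : Set ℕ := {i | n + 3 ≤ i ∧ i < 2 * n} with hDdef
  have hIc : I.ncard + 3 = n := by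
    have : I = ((Finset.Ico 3 n : Finset ℕ) : Set ℕ) := by ext i; simp [hIdef]
    rw [this, Set.ncard_coe_finset, Nat.card_Ico]; omega
  have hIf : I.Finite := Set.finite_Ico 3 n
  have hIind : Ind n True True I := by
    refine ⟨?_, by omega, ?_, fun _ => ⟨fun h => ?_, fun h => ?_⟩, fun _ h => ?_⟩
    · intro i hi; simp only [hIdef, E, mem_ofPred_eq] at *; omega
    · simp only [hIdef, mem_ofPred_eq]; omega
    · have := ncard_X n; rw [← h] at this; omega
    · have := ncard_X' n (by omega); rw [← h] at this; omega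
    · have := ncard_Y n; rw [← h] at this; omega
  have hembI : ∀ i ∈ E 3, emb n i ∉ I := by
    intro i hi
    have hi' : i ≤ 6 := hi
    simp only [hIdef, mem_ofPred_eq]
    rcases emb_cases n i hi' with h | h | h <;> omega
  have hembD : ∀ i ∈ E 3, emb n i ∉ D := by
    intro i hi
    have hi' : i ≤ 6 := hi
    simp only [hDdef, mem_ofPred_eq]
    rcases emb_cases n i hi' with h | h | h <;> omega
  have hembE : ∀ i ∈ E 3, emb n i ∈ E n := by
    intro i hi
    have hi' : i ≤ 6 := hi
    simp only [E, mem_ofPred_eq]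
    rcases emb_cases n i hi' with h | h | h <;> omega
  have e0 : emb n 0 = 0 := rfl
  have e6 : emb n 6 = 2 * n := rfl
  refine isoMinor_of_fun (N' := ((Mat n True True (by omega)).contract I).delete D)
    (Matroid.contract_delete_isMinor _ _ _) (emb n) (emb_bij hn ?_) ?_
  · intro x
    simp only [hIdef, hDdef, E, mem_ofPred_eq]; omega
  · intro S hS
    have hS' : S ⊆ E 3 := hS
    rw [minor_indep (show (Mat n True True (by omega)).Indep I from hIind)]
    have hdI : Disjoint (emb n '' S) I := by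
      rw [Set.disjoint_left]; rintro _ ⟨i, hi, rfl⟩; exact hembI i (hS' hi)
    have hdD : Disjoint (emb n '' S) D := by
      rw [Set.disjoint_left]; rintro _ ⟨i, hi, rfl⟩; exact hembD i (hS' hi)
    have hsubE : emb n '' S ∪ I ⊆ E n := by
      refine Set.union_subset ?_ hIind.1
      rintro _ ⟨i, hi, rfl⟩
      exact hembE i (hS' hi)
    have hcard := card_image_union hn hS' hIf hembI
    have m0 := mem_image_union hn hS' hembI 0 (by simp [E])
    have m6 := mem_image_union hn hS' hembI 6 (by simp [E])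
    rw [e0] at m0
    rw [e6] at m6
    have hXeq : emb n '' S ∪ I = X n ↔ S = X 3 := by
      rw [image_union_eq_iff (emb_inj hn) hS' ?_ ?_ hembI]
      · have : {i | i ∈ E 3 ∧ emb n i ∈ X n} = X 3 := by
          ext i
          simp only [E, X, mem_ofPred_eq]
          constructor
          · rintro ⟨h1, h2⟩
            rcases emb_cases n i h1 with h | h | h <;> omega
          · intro h
            refine ⟨by omega, ?_⟩
            rcases emb_cases n i (by omega) with h | h | h <;> omega
        rw [this]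
      · intro i hi; simp only [hIdef, X, mem_ofPred_eq] at *; omega
      · intro i hi
        simp only [X, mem_ofPred_eq] at hi
        by_cases h3 : 3 ≤ i
        · right; exact ⟨h3, hi⟩
        · left; refine ⟨i, show i ≤ 6 by omega, ?_⟩
          rcases emb_cases n i (by omega) with h | h | h <;> omega
    have hX'eq : emb n '' S ∪ I = X' n ↔ S = X' 3 := by
      rw [image_union_eq_iff (emb_inj hn) hS' ?_ ?_ hembI]
      · have : {i | i ∈ E 3 ∧ emb n i ∈ X' n} = X' 3 := by
          ext i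
          simp only [E, X', mem_ofPred_eq]
          constructor
          · rintro ⟨h1, h2⟩
            rcases emb_cases n i h1 with h | h | h <;> omega
          · intro h
            refine ⟨by omega, ?_⟩
            rcases emb_cases n i (by omega) with h | h | h <;> omega
        rw [this]
      · intro i hi; simp only [hIdef, X', mem_ofPred_eq] at *; omega
      · intro i hi
        simp only [X', mem_ofPred_eq] at hi
        rcases hi with hi | hi
        · by_cases h3 : 3 ≤ i
          · right; exact ⟨h3, hi.2⟩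
          · left; refine ⟨i, show i ≤ 6 by omega, ?_⟩
            rcases emb_cases n i (by omega) with h | h | h <;> omega
        · left; refine ⟨6, show 6 ≤ 6 by omega, ?_⟩
          rw [e6, hi]
    have hYne : emb n '' S ∪ I ≠ Y n := by
      intro h
      have h3 : 3 ∈ emb n '' S ∪ I := Or.inr ⟨le_refl _, by omega⟩
      rw [h] at h3
      simp only [Y, mem_ofPred_eq] at h3; omega
    constructor
    · intro hh
      refine ⟨hdI, ⟨hsubE, ?_, ?_, fun _ => ⟨?_, ?_⟩, fun _ => hYne⟩, hdD⟩
      · rw [hcard]; have := hh.2.1; omega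
      · rw [m0, m6]; exact hh.2.2.1
      · rw [Ne, hXeq]; exact (hh.2.2.2.1 trivial).1
      · rw [Ne, hX'eq]; exact (hh.2.2.2.1 trivial).2
    · rintro ⟨_, hh, _⟩
      refine ⟨hS', ?_, ?_, fun _ => ⟨?_, ?_⟩, fun h => absurd h (by trivial)⟩
      · have := hh.2.1; rw [hcard] at this; omega
      · have := hh.2.2.1; rw [m0, m6] at this; exact this
      · have := (hh.2.2.2.1 trivial).1; rw [Ne, hXeq] at this; exact this
      · have := (hh.2.2.2.1 trivial).2; rw [Ne, hX'eq] at this; exact this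

lemma has2 {n : ℕ} (hn : 4 ≤ n) :
    IsoMinor (Mat 3 False True (by norm_num)) (Mat n True True (by omega)) := by
  set I : Set ℕ := {i | n + 3 ≤ i ∧ i < 2 * n} with hIdef
  set D : Set ℕ := {i | 3 ≤ i ∧ i < n} with hDdef
  have hIc : I.ncard + 3 = n := by
    have : I = ((Finset.Ico (n + 3) (2 * n) : Finset ℕ) : Set ℕ) := by ext i; simp [hIdef]
    rw [this, Set.ncard_coe_finset, Nat.card_Ico]; omega
  have hIf : I.Finite := Set.finite_Ico (n + 3) (2 * n)
  have hIind : Ind n True True I := by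
    refine ⟨?_, by omega, ?_, fun _ => ⟨fun h => ?_, fun h => ?_⟩, fun _ h => ?_⟩
    · intro i hi; simp only [hIdef, E, mem_ofPred_eq] at *; omega
    · simp only [hIdef, mem_ofPred_eq]; omega
    · have := ncard_X n; rw [← h] at this; omega
    · have := ncard_X' n (by omega); rw [← h] at this; omega
    · have := ncard_Y n; rw [← h] at this; omega
  have hembI : ∀ i ∈ E 3, emb n i ∉ I := by
    intro i hi
    have hi' : i ≤ 6 := hi
    simp only [hIdef, mem_ofPred_eq]
    rcases emb_cases n i hi' with h | h | h <;> omega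
  have hembD : ∀ i ∈ E 3, emb n i ∉ D := by
    intro i hi
    have hi' : i ≤ 6 := hi
    simp only [hDdef, mem_ofPred_eq]
    rcases emb_cases n i hi' with h | h | h <;> omega
  have hembE : ∀ i ∈ E 3, emb n i ∈ E n := by
    intro i hi
    have hi' : i ≤ 6 := hi
    simp only [E, mem_ofPred_eq]
    rcases emb_cases n i hi' with h | h | h <;> omega
  have e0 : emb n 0 = 0 := rfl
  have e6 : emb n 6 = 2 * n := rfl
  refine isoMinor_of_fun (N' := ((Mat n True True (by omega)).contract I).delete D)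
    (Matroid.contract_delete_isMinor _ _ _) (emb n) (emb_bij hn ?_) ?_
  · intro x
    simp only [hIdef, hDdef, E, mem_ofPred_eq]; omega
  · intro S hS
    have hS' : S ⊆ E 3 := hS
    rw [minor_indep (show (Mat n True True (by omega)).Indep I from hIind)]
    have hdI : Disjoint (emb n '' S) I := by
      rw [Set.disjoint_left]; rintro _ ⟨i, hi, rfl⟩; exact hembI i (hS' hi)
    have hdD : Disjoint (emb n '' S) D := by
      rw [Set.disjoint_left]; rintro _ ⟨i, hi, rfl⟩; exact hembD i (hS' hi)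
    have hsubE : emb n '' S ∪ I ⊆ E n := by
      refine Set.union_subset ?_ hIind.1
      rintro _ ⟨i, hi, rfl⟩
      exact hembE i (hS' hi)
    have hcard := card_image_union hn hS' hIf hembI
    have m0 := mem_image_union hn hS' hembI 0 (by simp [E])
    have m6 := mem_image_union hn hS' hembI 6 (by simp [E])
    rw [e0] at m0
    rw [e6] at m6
    have hYeq : emb n '' S ∪ I = Y n ↔ S = Y 3 := by
      rw [image_union_eq_iff (emb_inj hn) hS' ?_ ?_ hembI]
      · have : {i | i ∈ E 3 ∧ emb n i ∈ Y n} = Y 3 := by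
          ext i
          simp only [E, Y, mem_ofPred_eq]
          constructor
          · rintro ⟨h1, h2⟩
            rcases emb_cases n i h1 with h | h | h <;> omega
          · intro h
            refine ⟨by omega, ?_⟩
            rcases emb_cases n i (by omega) with h | h | h <;> omega
        rw [this]
      · intro i hi; simp only [hIdef, Y, mem_ofPred_eq] at *; omega
      · intro i hi
        simp only [Y, mem_ofPred_eq] at hi
        by_cases h3 : n + 3 ≤ i
        · right; exact ⟨h3, hi.2⟩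
        · left; refine ⟨i - n + 3, show i - n + 3 ≤ 6 by omega, ?_⟩
          rcases emb_cases n (i - n + 3) (by omega) with h | h | h <;> omega
    have hmemI3 : n + 3 ∈ emb n '' S ∪ I ∨ n = 3 := by
      by_cases h : n = 3
      · exact Or.inr h
      · left; right; exact ⟨le_refl _, by omega⟩
    have hXne : emb n '' S ∪ I ≠ X n := by
      intro h
      rcases hmemI3 with h3 | h3
      · rw [h] at h3; simp only [X, mem_ofPred_eq] at h3; omega
      · omega
    have hX'ne : emb n '' S ∪ I ≠ X' n := by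
      intro h
      rcases hmemI3 with h3 | h3
      · rw [h] at h3; simp only [X', mem_ofPred_eq] at h3; omega
      · omega
    constructor
    · intro hh
      refine ⟨hdI, ⟨hsubE, ?_, ?_, fun _ => ⟨hXne, hX'ne⟩, fun _ => ?_⟩, hdD⟩
      · rw [hcard]; have := hh.2.1; omega
      · rw [m0, m6]; exact hh.2.2.1
      · rw [Ne, hYeq]; exact hh.2.2.2.2 trivial
    · rintro ⟨_, hh, _⟩
      refine ⟨hS', ?_, ?_, fun h => absurd h (by trivial), fun _ => ?_⟩
      · have := hh.2.1; rw [hcard] at this; omega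
      · have := hh.2.2.1; rw [m0, m6] at this; exact this
      · have := hh.2.2.2.2 trivial; rw [Ne, hYeq] at this; exact this

lemma ncard_E (n : ℕ) : (E n).ncard = 2 * n + 1 := by
  have : E n = ((Finset.range (2 * n + 1) : Finset ℕ) : Set ℕ) := by
    ext i; simp [E]
  rw [this, Set.ncard_coe_finset, Finset.card_range]

theorem main :
    ¬ (∀ F₁ F₂ : Set (Matroid ℕ), F₁.Finite → F₂.Finite →
      ∃ F₃ : Set (Matroid ℕ), F₃.Finite ∧
        ∀ M : Matroid ℕ, M.E.Finite →
          (((∀ N ∈ F₁, ¬ IsoMinor N M) ∨ (∀ N ∈ F₂, ¬ IsoMinor N M)) ↔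
           (∀ N ∈ F₃, ¬ IsoMinor N M))) := by
  intro H
  obtain ⟨F3, hfin, hF3⟩ := H {Mat 3 True False (by norm_num)} {Mat 3 False True (by norm_num)}
    (Set.finite_singleton _) (Set.finite_singleton _)
  obtain ⟨B, hB⟩ : ∃ B : ℕ, ∀ N ∈ F3, N.E.ncard ≤ B := by
    obtain ⟨B, hB⟩ := (hfin.image (fun N => N.E.ncard)).bddAbove
    exact ⟨B, fun N hN => hB ⟨N, hN, rfl⟩⟩
  have hn : 2 ≤ B + 4 := by omega
  have hn4 : 4 ≤ B + 4 := by omega
  have h1 := has1 hn4
  have h2 := has2 hn4
  have hM := hF3 (Mat (B + 4) True True hn) (E_finite _)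
  have hL : ¬ ((∀ N ∈ ({Mat 3 True False (by norm_num)} : Set (Matroid ℕ)),
      ¬ IsoMinor N (Mat (B + 4) True True hn)) ∨
      (∀ N ∈ ({Mat 3 False True (by norm_num)} : Set (Matroid ℕ)),
      ¬ IsoMinor N (Mat (B + 4) True True hn))) := by
    rintro (h | h)
    · exact h _ rfl h1
    · exact h _ rfl h2
  rw [hM] at hL
  push Not at hL
  obtain ⟨N, hN, N0, hN0, e, he⟩ := hL
  have hcardN0 : N0.E.ncard ≤ B := by
    have h3 : N0.E.ncard = N.E.ncard := by
      rw [← Nat.card_coe_set_eq, ← Nat.card_coe_set_eq]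
      exact (Nat.card_congr e).symm
    rw [h3]; exact hB N hN
  have hne : N0.E ≠ E (B + 4) := by
    intro h; rw [h, ncard_E] at hcardN0; omega
  have hN0fin : N0.E.Finite := (E_finite _).subset hN0.subset
  have hM0 := hF3 N0 hN0fin
  have hR0 : ¬ (∀ N ∈ F3, ¬ IsoMinor N N0) := fun h =>
    h N hN ⟨N0, Matroid.IsMinor.refl, e, he⟩
  rw [← hM0] at hR0
  apply hR0
  by_contra hcon
  push Not at hcon
  obtain ⟨⟨K1, hK1, hk1⟩, ⟨K2, hK2, hk2⟩⟩ := hcon
  rw [Set.mem_singleton_iff] at hK1 hK2
  subst hK1 hK2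
  exact no_proper hn hN0 hne hk1 hk2

end Pool.Agent.U530.WelshUnion
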